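import Pool.Agent.VMX.StmtsA

/-!
# VMX squad (MP_e54c4c_gt): row SLC (limits of slices)
-/

set_option autoImplicit false

open Matrix Filter Topology

namespace Pool.Agent.VMX.H98

open Pool.Agent.PFS Pool.Agent.PFJ Pool.Agent.NBT

variable {n K : ℕ} {C : Set (V n)}

/-- a box estimate -/
theorem bx (hC : PCone C) {w : Fin K → V n} (hw : PES C w) {p j : Fin K} (hpj : p ≠ j)
    {L : Submodule ℝ (V n)} (hL : IB C w {p, j} L) {v : V n} (hv : v ∈ L) (ε : ℝ)
    (h : v + ε • ∑ i, w i ∈ closure C) : v + ε • (w p + w j) ∈ closure C := by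
  have h1 : v + ε • (w p + w j) ∈ L :=
    L.add_mem hv (L.smul_mem _ (L.add_mem (hL.mem p (by simp)) (hL.mem j (by simp))))
  have h2 : v + ε • (w p + w j) + ∑ m ∈ ({p, j} : Finset (Fin K))ᶜ, ε • w m
      = v + ε • ∑ i, w i := by
    rw [← fS_add_compl w {p, j}, fS_pair w hpj, smul_add ε (w p + w j), ← Finset.smul_sum,
      ← add_assoc]
    rfl
  exact (((H13.ibf n C hC K w hw).1 {p, j} L hL).2.2.1 _ h1 (fun _ => ε) (by rw [h2]; exact h)).1

/-- what dominates a unit is a unit -/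
theorem dom (hC : PCone C) {L : Submodule ℝ (V n)} {u e : V n} (hu : Unt C L u) (he : e ∈ L)
    {ε : ℝ} (hε : 0 < ε) (h : e - ε • u ∈ closure C) : Unt C L e := by
  have hecl : e ∈ closure C := by
    have h0 : e = (e - ε • u) + ε • u := by abel
    rw [h0]; exact hC.cl_add h (hC.cl_smul hu.2.1 hε.le)
  refine ⟨he, hecl, fun z hz => ?_⟩
  obtain ⟨M, hM, h1⟩ := hu.2.2 z hz
  refine ⟨M / ε, by positivity, ?_⟩
  have h2 : (M / ε) • e - z = (M / ε) • (e - ε • u) + (M • u - z) := by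
    rw [smul_sub, smul_smul, div_mul_cancel₀ M hε.ne']; abel
  rw [h2]; exact hC.cl_add (hC.cl_smul h (by positivity)) h1

/-- the largest multiple of a unit which can be subtracted -/
theorem crit (hC : PCone C) {L : Submodule ℝ (V n)} {u v : V n} (hu : Unt C L u) (hu0 : u ≠ 0)
    (hv : v ∈ L) :
    ∃ t : ℝ, v - t • u ∈ closure C ∧ ∀ s : ℝ, v - s • u ∈ closure C → s ≤ t := by
  have hcl : IsClosed {t : ℝ | v - t • u ∈ closure C} :=
    isClosed_closure.preimage (by fun_prop)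
  have hne : {t : ℝ | v - t • u ∈ closure C}.Nonempty := by
    obtain ⟨M, hM, h1⟩ := hu.2.2 (-v) (L.neg_mem hv)
    refine ⟨-M, ?_⟩
    have h2 : v - (-M) • u = M • u - -v := by rw [neg_smul]; abel
    show v - (-M) • u ∈ closure C
    rw [h2]; exact h1
  have hbd : BddAbove {t : ℝ | v - t • u ∈ closure C} := by
    by_contra hnb
    have h1 : ∀ k : ℕ, ∃ t : ℝ, v - t • u ∈ closure C ∧ (k : ℝ) + 1 < t := by
      intro k
      by_contra h2
      push Not at h2
      exact hnb ⟨(k : ℝ) + 1, fun t ht => h2 t ht⟩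
    choose t ht1 ht2 using h1
    apply hu0
    refine hC.salient u hu.2.1 ?_
    have h3 : Tendsto (fun k => (t k)⁻¹ • v - u) atTop (𝓝 ((0:ℝ) • v - u)) := by
      refine Tendsto.sub_const (Tendsto.smul_const ?_ v) u
      refine tendsto_inv_atTop_zero.comp ?_
      refine tendsto_atTop_mono (fun k => ?_) (tendsto_natCast_atTop_atTop (R := ℝ))
      linarith [ht2 k]
    rw [zero_smul, zero_sub] at h3
    refine isClosed_closure.mem_of_tendsto h3 (Eventually.of_forall fun k => ?_)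
    have h4 : (0:ℝ) < t k := by
      have h5 := ht2 k
      have h6 : (0 : ℝ) ≤ (k : ℝ) := Nat.cast_nonneg k
      linarith
    have h5 : (t k)⁻¹ • v - u = (t k)⁻¹ • (v - t k • u) := by
      rw [smul_sub, smul_smul, inv_mul_cancel₀ h4.ne', one_smul]
    rw [h5]; exact hC.cl_smul (ht1 k) (by positivity)
  exact ⟨sSup _, hcl.csSup_mem hne hbd, fun s hs => le_csSup hbd hs⟩

/-- **Row SLC** -/
theorem slc (slb : SlbStmt) : SlcStmt := by
  intro n C Γ hCC K hK hmax x z hx hz hxz p j hpj E d hE hd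
  have hC : PCone C := hCC.toPCone
  obtain ⟨φ, E', hφ, hlim, hfr⟩ := Pool.Agent.PFJ.H69.lsc n E
  have hIB : IB C z {p, j} E' :=
    H28.ibl n C hC K (fun k => x (φ k)) z {p, j} (fun k => E (φ k)) E' (fun k => (hx _).1) hz.1
      (fun l => (hxz l).comp hφ.tendsto_atTop) (fun k => hE (φ k)) hlim
  have hSx : Tendsto (fun k => x (φ k) p + x (φ k) j) atTop (𝓝 (z p + z j)) :=
    ((hxz p).comp hφ.tendsto_atTop).add ((hxz j).comp hφ.tendsto_atTop)
  have hfx : Tendsto (fun k => ∑ i, x (φ k) i) atTop (𝓝 (∑ i, z i)) :=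
    tendsto_finsetSum _ fun i _ => (hxz i).comp hφ.tendsto_atTop
  have hfz : ∑ i, z i ∈ C := hz.1.sum_mem
  have hUk : ∀ k, Unt C (E (φ k)) (x (φ k) p + x (φ k) j) := by
    intro k
    have h1 := ((H13.ibf n C hC K (x (φ k)) (hx _).1).1 {p, j} (E (φ k)) (hE _)).1
    rwa [fS_pair _ hpj] at h1
  have hUz : Unt C E' (z p + z j) := by
    have h1 := ((H13.ibf n C hC K z hz.1).1 {p, j} E' hIB).1
    rwa [fS_pair _ hpj] at h1
  have hBp : ∀ k, PCO.Bd C (E (φ k)) (x (φ k) p) := fun k =>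
    (slb n C Γ hCC K hK hmax (x (φ k)) (hx _) p j hpj (E (φ k)) (hE _)).2.2.2.1
  have hS0 : ∀ k, x (φ k) p + x (φ k) j ≠ 0 := by
    intro k h0
    have h1 := hUk k
    rw [h0] at h1
    obtain ⟨M, hM, h2⟩ := h1.2.2 (x (φ k) p) (hBp k).1
    rw [smul_zero, zero_sub] at h2
    exact (hBp k).2.2.1 (hC.salient _ (hBp k).2.1 h2)
  refine ⟨φ, E', hφ, hlim, hIB, (hfr 0).symm.trans (hd _), ?_, ?_⟩
  · intro e he
    obtain ⟨v, hv, hve⟩ := hlim.1 e he.1
    choose t ht1 ht2 using fun k => crit hC (hUk k) (hS0 k) (hv k)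
    have hlow : ∀ ε : ℝ, 0 < ε → ∀ᶠ k in atTop, -ε ≤ t k := by
      intro ε hε
      have h1 : e + ε • ∑ i, z i ∈ C := hC.cl_add' he.2.1 (hC.smul _ hfz ε hε)
      have h2 : Tendsto (fun k => v k + ε • ∑ i, x (φ k) i) atTop (𝓝 (e + ε • ∑ i, z i)) :=
        hve.add (hfx.const_smul ε)
      filter_upwards [h2.eventually (hC.isOpen.mem_nhds h1)] with k hk
      have h3 := bx hC (hx (φ k)).1 hpj (hE (φ k)) (hv k) ε (subset_closure hk)
      refine ht2 k (-ε) ?_
      rw [neg_smul, sub_neg_eq_add]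
      exact h3
    have hupp : ∀ τ : ℝ, 0 < τ → ∀ᶠ k in atTop, t k < τ := by
      intro τ hτ
      by_contra hcon
      have h1 : ∃ᶠ k in atTop, τ ≤ t k := by
        intro h2
        apply hcon
        filter_upwards [h2] with k hk
        exact lt_of_not_ge hk
      have h2 : ∃ᶠ k in atTop, v k - τ • (x (φ k) p + x (φ k) j) ∈ closure C := by
        refine h1.mono fun k hk => ?_
        have h3 : v k - τ • (x (φ k) p + x (φ k) j)
            = (v k - t k • (x (φ k) p + x (φ k) j))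
              + (t k - τ) • (x (φ k) p + x (φ k) j) := by
          rw [sub_smul]; abel
        rw [h3]
        exact hC.cl_add (ht1 k) (hC.cl_smul (hUk k).2.1 (sub_nonneg.2 hk))
      have h3 : Tendsto (fun k => v k - τ • (x (φ k) p + x (φ k) j)) atTop
          (𝓝 (e - τ • (z p + z j))) := hve.sub (hSx.const_smul τ)
      have h4 : e - τ • (z p + z j) ∈ closure C :=
        isClosed_closure.mem_of_frequently_of_tendsto h2 h3
      exact he.2.2.2 (dom hC hUz he.1 hτ h4)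
    have ht0 : Tendsto t atTop (𝓝 0) := by
      refine tendsto_order.2 ⟨fun a ha => ?_, fun a ha => hupp a ha⟩
      filter_upwards [hlow (-a / 2) (by linarith)] with k hk
      linarith
    have he' : Tendsto (fun k => v k - t k • (x (φ k) p + x (φ k) j)) atTop (𝓝 e) := by
      have h1 := hve.sub (ht0.smul hSx)
      rwa [zero_smul, sub_zero] at h1
    have hnu : ∀ k, ¬ Unt C (E (φ k)) (v k - t k • (x (φ k) p + x (φ k) j)) := by
      intro k hk
      obtain ⟨M, hM, h1⟩ := hk.2.2 _ (hUk k).1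
      have h2 : v k - (t k + M⁻¹) • (x (φ k) p + x (φ k) j)
          = M⁻¹ • (M • (v k - t k • (x (φ k) p + x (φ k) j))
              - (x (φ k) p + x (φ k) j)) := by
        rw [smul_sub M⁻¹, smul_smul, inv_mul_cancel₀ hM.ne', one_smul, add_smul]; abel
      have h3 := ht2 k (t k + M⁻¹) (by rw [h2]; exact hC.cl_smul h1 (by positivity))
      have h4 : 0 < M⁻¹ := by positivity
      linarith
    classical
    refine ⟨fun k => if v k - t k • (x (φ k) p + x (φ k) j) = 0 then x (φ k) p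
      else v k - t k • (x (φ k) p + x (φ k) j), fun k => ?_, ?_⟩
    · by_cases h0 : v k - t k • (x (φ k) p + x (φ k) j) = 0
      · simp only [if_pos h0]
        exact hBp k
      · simp only [if_neg h0]
        exact ⟨Submodule.sub_mem _ (hv k) (Submodule.smul_mem _ _ (hUk k).1), ht1 k, h0, hnu k⟩
    · refine he'.congr' ?_
      filter_upwards [he'.eventually (isOpen_ne.mem_nhds he.2.2.1)] with k hk
      rw [if_neg hk]
  · intro ψ e' e hψ hB hlt hne
    have heE : e ∈ E' := hlim.2 ψ e' e hψ (fun k => (hB k).1) hlt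
    have hecl : e ∈ closure C :=
      isClosed_closure.mem_of_tendsto hlt (Eventually.of_forall fun k => (hB k).2.1)
    refine ⟨heE, hecl, hne, fun hU => ?_⟩
    obtain ⟨M, hM, h1⟩ := hU.2.2 _ hUz.1
    have hη : 0 < M⁻¹ := by positivity
    have h2 : e - M⁻¹ • (z p + z j) ∈ closure C := by
      have h3 : e - M⁻¹ • (z p + z j) = M⁻¹ • (M • e - (z p + z j)) := by
        rw [smul_sub, smul_smul, inv_mul_cancel₀ hM.ne', one_smul]
      rw [h3]; exact hC.cl_smul h1 hη.le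
    have h3 : e - M⁻¹ • (z p + z j) + (M⁻¹ / 2) • ∑ i, z i ∈ C :=
      hC.cl_add' h2 (hC.smul _ hfz _ (by positivity))
    have h4 : Tendsto (fun k => e' k - M⁻¹ • (x (φ (ψ k)) p + x (φ (ψ k)) j)
        + (M⁻¹ / 2) • ∑ i, x (φ (ψ k)) i) atTop
        (𝓝 (e - M⁻¹ • (z p + z j) + (M⁻¹ / 2) • ∑ i, z i)) :=
      (hlt.sub ((hSx.comp hψ.tendsto_atTop).const_smul M⁻¹)).add
        ((hfx.comp hψ.tendsto_atTop).const_smul (M⁻¹ / 2))
    obtain ⟨k, hk⟩ := (h4.eventually (hC.isOpen.mem_nhds h3)).exists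
    have h5 : e' k - M⁻¹ • (x (φ (ψ k)) p + x (φ (ψ k)) j) ∈ E (φ (ψ k)) :=
      Submodule.sub_mem _ (hB k).1 (Submodule.smul_mem _ _ (hUk (ψ k)).1)
    have h6 := bx hC (hx (φ (ψ k))).1 hpj (hE (φ (ψ k))) h5 (M⁻¹ / 2) (subset_closure hk)
    have h7 : e' k - (M⁻¹ / 2) • (x (φ (ψ k)) p + x (φ (ψ k)) j)
        = e' k - M⁻¹ • (x (φ (ψ k)) p + x (φ (ψ k)) j)
          + (M⁻¹ / 2) • (x (φ (ψ k)) p + x (φ (ψ k)) j) := by
      have h8 : M⁻¹ • (x (φ (ψ k)) p + x (φ (ψ k)) j)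
          = (M⁻¹ / 2) • (x (φ (ψ k)) p + x (φ (ψ k)) j)
            + (M⁻¹ / 2) • (x (φ (ψ k)) p + x (φ (ψ k)) j) := by
        rw [← add_smul]; congr 1; ring
      rw [h8]; abel
    exact (hB k).2.2.2 (dom hC (hUk (ψ k)) (hB k).1 (half_pos hη) (by rw [h7]; exact h6))

end Pool.Agent.VMX.H98
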